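import Mathlib

/-!
# A big group attached to an involution

For a group `Γ`, an element `s` and a function `κ : Γ → ZMod 2` we consider the group
`Big Γ s κ` of triples `(j, S, h)` where `j : Γ → ZMod 2`, `S : Γ →₀ ZMod 2` and `h : Γ`.
-/

namespace Run7.h352.AlmostLaw

open Finset

section forms

variable {Γ : Type} [Group Γ]

/-- Left translate of a finitely supported function. -/
noncomputable def tr (h : Γ) (S : Γ →₀ ZMod 2) : Γ →₀ ZMod 2 :=
  Finsupp.equivMapDomain (Equiv.mulLeft h) S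

theorem tr_apply (h : Γ) (S : Γ →₀ ZMod 2) (g : Γ) : tr h S g = S (h⁻¹ * g) := by
  simp [tr]

theorem tr_add (h : Γ) (S T : Γ →₀ ZMod 2) : tr h (S + T) = tr h S + tr h T := by
  ext g; simp [tr_apply]

theorem tr_tr (h k : Γ) (S : Γ →₀ ZMod 2) : tr h (tr k S) = tr (h * k) S := by
  ext g; simp [tr_apply, mul_assoc]

theorem tr_one (S : Γ →₀ ZMod 2) : tr 1 S = S := by
  ext g; simp [tr_apply]

theorem tr_zero (h : Γ) : tr h (0 : Γ →₀ ZMod 2) = 0 := by
  ext g; simp [tr_apply]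

/-- The family of bilinear forms. -/
noncomputable def B (s : Γ) (κ : Γ → ZMod 2) (S T : Γ →₀ ZMod 2) (x : Γ) : ZMod 2 :=
  S.sum fun g c => c * T (g * s) * κ (x⁻¹ * g)

variable (s : Γ) (κ : Γ → ZMod 2)

theorem B_add_left (S S' T : Γ →₀ ZMod 2) (x : Γ) :
    B s κ (S + S') T x = B s κ S T x + B s κ S' T x := by
  classical
  unfold B
  rw [Finsupp.sum_add_index']
  · intro g; simp
  · intro g a b; ring

theorem B_add_right (S T T' : Γ →₀ ZMod 2) (x : Γ) :
    B s κ S (T + T') x = B s κ S T x + B s κ S T' x := by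
  unfold B
  rw [← Finsupp.sum_add]
  refine Finsupp.sum_congr fun g _ => ?_
  simp only [Finsupp.add_apply]
  ring

theorem B_zero_left (T : Γ →₀ ZMod 2) (x : Γ) : B s κ 0 T x = 0 := by
  simp [B]

theorem B_zero_right (S : Γ →₀ ZMod 2) (x : Γ) : B s κ S 0 x = 0 := by
  simp [B]

theorem B_tr (h : Γ) (S T : Γ →₀ ZMod 2) (x : Γ) :
    B s κ (tr h S) (tr h T) x = B s κ S T (h⁻¹ * x) := by
  unfold B
  rw [tr, Finsupp.equivMapDomain_eq_mapDomain, Finsupp.sum_mapDomain_index_inj]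
  · refine Finsupp.sum_congr fun g _ => ?_
    simp only [Equiv.coe_mulLeft, tr_apply]
    congr 2
    · congr 1; group
    · group
  · exact (Equiv.mulLeft h).injective

end forms

/-- The triples. -/
@[ext] structure Big (Γ : Type) (s : Γ) (κ : Γ → ZMod 2) where
  j : Γ → ZMod 2
  S : Γ →₀ ZMod 2
  h : Γ

section group

variable {Γ : Type} [Group Γ] {s : Γ} {κ : Γ → ZMod 2}

noncomputable instance : Mul (Big Γ s κ) :=
  ⟨fun a b => ⟨fun x => a.j x + b.j (a.h⁻¹ * x) + B s κ a.S (tr a.h b.S) x,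
    a.S + tr a.h b.S, a.h * b.h⟩⟩

instance : One (Big Γ s κ) := ⟨⟨0, 0, 1⟩⟩

noncomputable instance : Inv (Big Γ s κ) :=
  ⟨fun a => ⟨fun x => a.j (a.h * x) + B s κ (tr a.h⁻¹ a.S) (tr a.h⁻¹ a.S) x,
    tr a.h⁻¹ a.S, a.h⁻¹⟩⟩

theorem mul_j (a b : Big Γ s κ) (x : Γ) :
    (a * b).j x = a.j x + b.j (a.h⁻¹ * x) + B s κ a.S (tr a.h b.S) x := rfl
theorem mul_S (a b : Big Γ s κ) : (a * b).S = a.S + tr a.h b.S := rfl
theorem mul_h (a b : Big Γ s κ) : (a * b).h = a.h * b.h := rfl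
theorem one_j (x : Γ) : (1 : Big Γ s κ).j x = 0 := rfl
theorem one_S : (1 : Big Γ s κ).S = 0 := rfl
theorem one_h : (1 : Big Γ s κ).h = 1 := rfl
theorem inv_j (a : Big Γ s κ) (x : Γ) :
    (a⁻¹).j x = a.j (a.h * x) + B s κ (tr a.h⁻¹ a.S) (tr a.h⁻¹ a.S) x := rfl
theorem inv_S (a : Big Γ s κ) : (a⁻¹).S = tr a.h⁻¹ a.S := rfl
theorem inv_h (a : Big Γ s κ) : (a⁻¹).h = a.h⁻¹ := rfl

theorem z2 : ∀ a : ZMod 2, a + a = 0 := by decide

theorem f2 {α : Type} (S : α →₀ ZMod 2) : S + S = 0 := by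
  ext g; exact z2 _

noncomputable instance : Group (Big Γ s κ) := Group.ofLeftAxioms
  (by
    intro a b c
    refine Big.ext ?_ ?_ ?_
    · funext x
      simp only [mul_j, mul_S, mul_h]
      have h1 : tr (a.h * b.h) c.S = tr a.h (tr b.h c.S) := (tr_tr _ _ _).symm
      have h2 : (a.h * b.h)⁻¹ * x = b.h⁻¹ * (a.h⁻¹ * x) := by group
      rw [h1, h2, tr_add, B_add_left, B_add_right, B_tr]
      ring
    · simp only [mul_S, mul_h, tr_add, tr_tr, add_assoc]
    · simp only [mul_h, mul_assoc])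
  (by
    intro a
    refine Big.ext ?_ ?_ ?_
    · funext x
      simp [mul_j, one_j, one_h, one_S, tr_one, B_zero_left]
    · simp [mul_S, one_S, one_h, tr_one]
    · simp [mul_h, one_h])
  (by
    intro a
    refine Big.ext ?_ ?_ ?_
    · funext x
      simp only [mul_j, inv_j, inv_S, inv_h, one_j, inv_inv]
      calc _ = (a.j (a.h * x) + a.j (a.h * x)) +
          (B s κ (tr a.h⁻¹ a.S) (tr a.h⁻¹ a.S) x + B s κ (tr a.h⁻¹ a.S) (tr a.h⁻¹ a.S) x) := by ring
        _ = 0 := by rw [z2, z2, add_zero]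
    · simp only [mul_S, inv_S, inv_h, one_S]
      exact f2 _
    · simp [mul_h, inv_h, one_h])

/-- Projection to `Γ`. -/
def pr : Big Γ s κ →* Γ where
  toFun a := a.h
  map_one' := rfl
  map_mul' _ _ := rfl

end group

end Run7.h352.AlmostLaw
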