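import Mathlib
import Pool.Agent.Run7.h352.AlmostLaw1

/-!
# Fourth powers in the big group
-/

namespace Run7.h352.AlmostLaw

open Finset

section invol

variable {Γ : Type}

theorem sum_invol (S : Finset Γ) (F : Γ → ZMod 2) (i : Γ → Γ) (hi : ∀ g, i (i g) = g)
    (hF : ∀ g, F (i g) = F g) (hsup : ∀ g, F g ≠ 0 → g ∈ S) (hne : ∀ g, F g ≠ 0 → i g ≠ g) :
    ∑ g ∈ S, F g = 0 := by
  classical
  rw [← sum_filter_ne_zero]
  refine sum_involution (fun g _ => i g) ?_ ?_ ?_ ?_
  · intro g _
    rw [hF]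
    exact z2 _
  · intro g _ h
    exact hne g h
  · intro g hg
    have h1 := (mem_filter.mp hg).2
    have h2 : F (i g) ≠ 0 := by rwa [hF]
    exact mem_filter.mpr ⟨hsup _ h2, h2⟩
  · intro g _
    exact hi g

end invol

section forms

variable {Γ : Type} [Group Γ] {s : Γ} {κ : Γ → ZMod 2}

/-- The invariant of `(S, t)`. -/
noncomputable def Om (s : Γ) (S : Γ →₀ ZMod 2) (t : Γ) : ZMod 2 :=
  S.sum fun g a => a * S (t * g * s)

theorem B_diag (hs : s * s = 1) (hs1 : s ≠ 1) (hκ : ∀ g, κ (g * s) = κ g + 1)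
    (S : Γ →₀ ZMod 2) (x y : Γ) : B s κ S S x + B s κ S S y = 0 := by
  unfold B Finsupp.sum
  rw [← sum_add_distrib]
  refine sum_invol S.support (fun g => S g * S (g * s) * κ (x⁻¹ * g) +
    S g * S (g * s) * κ (y⁻¹ * g)) (fun g => g * s) ?_ ?_ ?_ ?_
  · intro g
    simp only [mul_assoc, hs, mul_one]
  · intro g
    have e1 : g * s * s = g := by rw [mul_assoc, hs, mul_one]
    have e2 : x⁻¹ * (g * s) = x⁻¹ * g * s := by group
    have e3 : y⁻¹ * (g * s) = y⁻¹ * g * s := by group
    simp only [e1, e2, e3, hκ]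
    have : S (g * s) * S g * (κ (x⁻¹ * g) + 1) + S (g * s) * S g * (κ (y⁻¹ * g) + 1) =
      (S g * S (g * s) * κ (x⁻¹ * g) + S g * S (g * s) * κ (y⁻¹ * g)) +
      (S (g * s) * S g + S (g * s) * S g) := by ring
    rw [this, z2, add_zero]
  · intro g hg
    rw [Finsupp.mem_support_iff]
    intro h
    apply hg
    simp [h]
  · intro g _ h
    exact hs1 (by simpa using h)

theorem B_cross (hs : s * s = 1) (hκ : ∀ g, κ (g * s) = κ g + 1)
    (S T : Γ →₀ ZMod 2) (x : Γ) :
    B s κ S T x + B s κ T S x = S.sum fun g a => a * T (g * s) := by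
  classical
  set A : Finset Γ := S.support ∪ T.support with hA
  set U : Finset Γ := A ∪ A.image (fun g => g * s) with hU
  have hSU : S.support ⊆ U := fun g hg => mem_union_left _ (mem_union_left _ hg)
  have hTU : T.support ⊆ U := fun g hg => mem_union_left _ (mem_union_right _ hg)
  have hss : ∀ g : Γ, g * s * s = g := fun g => by rw [mul_assoc, hs, mul_one]
  have hcl : ∀ g ∈ U, g * s ∈ U := by
    intro g hg
    rcases mem_union.mp hg with h | h
    · exact mem_union_right _ (mem_image_of_mem _ h)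
    · obtain ⟨g', hg', rfl⟩ := mem_image.mp h
      rw [hss]
      exact mem_union_left _ hg'
  have e1 : B s κ S T x = ∑ g ∈ U, S g * T (g * s) * κ (x⁻¹ * g) := by
    unfold B
    exact Finsupp.sum_of_support_subset _ hSU _ (by intro g _; simp)
  have e2 : B s κ T S x = ∑ g ∈ U, T g * S (g * s) * κ (x⁻¹ * g) := by
    unfold B
    exact Finsupp.sum_of_support_subset _ hTU _ (by intro g _; simp)
  have e3 : (S.sum fun g a => a * T (g * s)) = ∑ g ∈ U, S g * T (g * s) :=
    Finsupp.sum_of_support_subset _ hSU _ (by intro g _; simp)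
  have e4 : ∑ g ∈ U, T g * S (g * s) * κ (x⁻¹ * g) =
      ∑ g ∈ U, T (g * s) * S g * (κ (x⁻¹ * g) + 1) := by
    refine sum_bij' (fun g _ => g * s) (fun g _ => g * s) hcl hcl ?_ ?_ ?_
    · intro g _; exact hss g
    · intro g _; exact hss g
    · intro g _
      rw [hss]
      have h1 : x⁻¹ * (g * s) = x⁻¹ * g * s := by group
      have h2 : κ (x⁻¹ * (g * s)) + 1 = κ (x⁻¹ * g) := by
        rw [h1, hκ, add_assoc, z2, add_zero]
      rw [h2]
  rw [e1, e2, e3, e4, ← sum_add_distrib]
  refine sum_congr rfl fun g _ => ?_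
  have : S g * T (g * s) * κ (x⁻¹ * g) + T (g * s) * S g * (κ (x⁻¹ * g) + 1) =
    S g * T (g * s) + (S g * T (g * s) * κ (x⁻¹ * g) + S g * T (g * s) * κ (x⁻¹ * g)) := by ring
  rw [this, z2, add_zero]

/-- The fourth power of an element whose projection is an involution. -/
theorem pow_four (hs : s * s = 1) (hs1 : s ≠ 1) (hκ : ∀ g, κ (g * s) = κ g + 1)
    (c : Big Γ s κ) (hc : c.h * c.h = 1) : c ^ 4 = ⟨fun _ => Om s c.S c.h, 0, 1⟩ := by
  have h4 : c ^ 4 = (c * c) * (c * c) := by
    rw [show (4 : ℕ) = 2 + 2 from rfl, pow_add, pow_two]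
  have hinv : c.h⁻¹ = c.h := inv_eq_of_mul_eq_one_left hc
  rw [h4]
  refine Big.ext ?_ ?_ ?_
  · funext x
    have e1 : (c * c * (c * c)).j x = (c * c).j x + (c * c).j x +
        B s κ (c * c).S (c * c).S x := by
      rw [mul_j]
      have : (c * c).h = 1 := hc
      rw [this, inv_one, one_mul, tr_one]
    rw [e1, z2, zero_add, mul_S, B_add_left, B_add_right, B_add_right, B_tr]
    have e2 := B_diag hs hs1 hκ c.S x (c.h⁻¹ * x)
    have e3 := B_cross hs hκ c.S (tr c.h c.S) x
    have e4 : (c.S.sum fun g a => a * (tr c.h c.S) (g * s)) = Om s c.S c.h := by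
      unfold Om
      refine Finsupp.sum_congr fun g _ => ?_
      rw [tr_apply, hinv, mul_assoc]
    rw [e4] at e3
    change _ = Om s c.S c.h
    rw [← e3]
    linear_combination e2
  · change (c * c).S + tr (c * c).h (c * c).S = 0
    have : (c * c).h = 1 := hc
    rw [this, tr_one]
    exact f2 _
  · change (c.h * c.h) * (c.h * c.h) = 1
    rw [hc, one_mul]

/-- If `t` is an involution (or trivial) and not conjugate to `s`, the invariant vanishes. -/
theorem Om_eq_zero (hs : s * s = 1) (S : Γ →₀ ZMod 2) (t : Γ) (ht : t * t = 1)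
    (hconj : ¬ ∃ g : Γ, t * g * s = g) : Om s S t = 0 := by
  unfold Om Finsupp.sum
  refine sum_invol S.support (fun g => S g * S (t * g * s)) (fun g => t * g * s) ?_ ?_ ?_ ?_
  · intro g
    calc t * (t * g * s) * s = (t * t) * g * (s * s) := by group
      _ = g := by rw [hs, ht, one_mul, mul_one]
  · intro g
    have : t * (t * g * s) * s = g := by
      calc t * (t * g * s) * s = (t * t) * g * (s * s) := by group
        _ = g := by rw [hs, ht, one_mul, mul_one]
    simp only [this]
    ring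
  · intro g hg
    rw [Finsupp.mem_support_iff]
    intro h
    apply hg
    simp [h]
  · intro g _ h
    exact hconj ⟨g, h⟩

end forms

end Run7.h352.AlmostLaw
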