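import Mathlib

/-!
# The finite lamplighter groups
-/

namespace Run7.h352.Lamp

open Finset

/-- The wreath product of `ZMod 2` and `ZMod q`. -/
@[ext] structure L (q : ℕ) where
  u : ZMod q → ZMod 2
  k : ZMod q

variable {q : ℕ}

/-- Translate. -/
def sh (k : ZMod q) (u : ZMod q → ZMod 2) : ZMod q → ZMod 2 := fun x => u (x - k)

instance : Mul (L q) := ⟨fun a b => ⟨a.u + sh a.k b.u, a.k + b.k⟩⟩
instance : One (L q) := ⟨⟨0, 0⟩⟩
instance : Inv (L q) := ⟨fun a => ⟨sh (-a.k) a.u, -a.k⟩⟩

theorem mul_u (a b : L q) : (a * b).u = a.u + sh a.k b.u := rfl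
theorem mul_k (a b : L q) : (a * b).k = a.k + b.k := rfl
theorem one_u : (1 : L q).u = 0 := rfl
theorem one_k : (1 : L q).k = 0 := rfl
theorem inv_u (a : L q) : (a⁻¹).u = sh (-a.k) a.u := rfl
theorem inv_k (a : L q) : (a⁻¹).k = -a.k := rfl

theorem z2 : ∀ a : ZMod 2, a + a = 0 := by decide

instance : Group (L q) := Group.ofLeftAxioms
  (by
    intro a b c
    refine L.ext ?_ ?_
    · funext x
      simp only [mul_u, mul_k, Pi.add_apply, sh]
      rw [add_assoc]
      congr 2
      congr 1
      ring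
    · simp only [mul_k, add_assoc])
  (by
    intro a
    refine L.ext ?_ ?_
    · funext x
      simp [mul_u, one_u, one_k, sh]
    · simp [mul_k, one_k])
  (by
    intro a
    refine L.ext ?_ ?_
    · funext x
      simp only [mul_u, inv_u, inv_k, Pi.add_apply, one_u, Pi.zero_apply]
      exact z2 _
    · simp [mul_k, inv_k, one_k])

theorem mul_def (a b : L q) : a * b = ⟨a.u + sh a.k b.u, a.k + b.k⟩ := rfl

/-- The lamp generator. -/
def aa (q : ℕ) : L q := ⟨Pi.single 0 1, 0⟩
/-- The shift generator. -/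
def tau (q : ℕ) : L q := ⟨0, 1⟩
/-- The involution `[τ, a]`. -/
def ss (q : ℕ) : L q := ⟨Pi.single 0 1 + Pi.single 1 1, 0⟩

theorem comm_k (x y : L q) : (x * y * x⁻¹ * y⁻¹).k = 0 := by
  simp only [mul_k, inv_k]
  ring

/-- The lamps of a commutator. -/
theorem comm_u (x y : L q) (i : ZMod q) : (x * y * x⁻¹ * y⁻¹).u i =
    (x.u i - x.u (i - y.k)) + (y.u (i - x.k) - y.u i) := by
  simp only [mul_u, mul_k, inv_u, inv_k, Pi.add_apply, sh]
  have h2 : ∀ a b : ZMod 2, a - b = a + b := by decide
  have e1 : i - (x.k + y.k) - -x.k = i - y.k := by ring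
  have e2 : i - (x.k + y.k + -x.k) - -y.k = i := by ring
  rw [e1, e2, h2 (x.u i) _, h2 (y.u (i - x.k)) _]
  ring

theorem sq_of_k (t : L q) (h : t.k = 0) : t * t = 1 := by
  refine L.ext ?_ ?_
  · funext x
    simp only [mul_u, h, Pi.add_apply, sh, sub_zero, one_u, Pi.zero_apply]
    exact z2 _
  · rw [mul_k, h, add_zero]; rfl

/-- If `t g s = g` then `t` is a translate of `s`. -/
theorem conj_u (t g : L q) (h : t * g * ss q = g) (ht : t.k = 0) : t.u = sh g.k (ss q).u := by
  have h1 := congrArg L.u h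
  funext x
  have h2 := congrFun h1 x
  simp only [mul_u, mul_k, ht, Pi.add_apply, sh, sub_zero, zero_add] at h2
  have : ∀ a b c : ZMod 2, a + b + c = b → a = c := by decide
  exact this _ _ _ h2

/-- `a` and `τ` generate. -/
theorem closure_eq_top [NeZero q] : Subgroup.closure {aa q, tau q} = ⊤ := by
  rw [eq_top_iff]
  intro g _
  set H := Subgroup.closure ({aa q, tau q} : Set (L q)) with hH
  have ha : aa q ∈ H := Subgroup.subset_closure (by simp)
  have ht : tau q ∈ H := Subgroup.subset_closure (by simp)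
  have hpow : ∀ n : ℕ, (tau q) ^ n = ⟨0, (n : ZMod q)⟩ := by
    intro n
    induction n with
    | zero =>
      simp only [pow_zero, Nat.cast_zero]
      rfl
    | succ n ih =>
      rw [pow_succ, ih]
      refine L.ext ?_ ?_
      · funext x
        simp [mul_u, tau, sh]
      · simp [mul_k, tau]
  have hk : ∀ k : ZMod q, (⟨0, k⟩ : L q) ∈ H := by
    intro k
    have := H.pow_mem ht k.val
    rw [hpow, ZMod.natCast_zmod_val] at this
    exact this
  have hd : ∀ k : ZMod q, (⟨Pi.single k 1, 0⟩ : L q) ∈ H := by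
    intro k
    have h1 := H.mul_mem (H.mul_mem (hk k) ha) (H.inv_mem (hk k))
    have h2 : (⟨0, k⟩ : L q) * aa q * (⟨0, k⟩ : L q)⁻¹ = ⟨Pi.single k 1, 0⟩ := by
      refine L.ext ?_ ?_
      · funext x
        simp only [mul_u, mul_k, inv_u, aa, Pi.add_apply, sh, Pi.zero_apply, zero_add, add_zero]
        by_cases h : x = k
        · subst h; simp
        · have h' : x - k ≠ 0 := sub_ne_zero.mpr h
          rw [Pi.single_eq_of_ne h', Pi.single_eq_of_ne h]
      · simp [mul_k, inv_k, aa]
    rw [h2] at h1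
    exact h1
  have hu : ∀ u : ZMod q → ZMod 2, (⟨u, 0⟩ : L q) ∈ H := by
    intro u
    have hsum : ∀ A : Finset (ZMod q), (⟨∑ k ∈ A, Pi.single k (u k), 0⟩ : L q) ∈ H := by
      intro A
      induction A using Finset.induction_on with
      | empty =>
        rw [sum_empty]
        exact H.one_mem
      | insert k A hk' ih =>
        rw [sum_insert hk']
        have h3 : (⟨Pi.single k (u k), 0⟩ : L q) ∈ H := by
          have : ∀ a : ZMod 2, a = 0 ∨ a = 1 := by decide
          rcases this (u k) with h | h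
          · rw [h, Pi.single_zero]
            exact H.one_mem
          · rw [h]
            exact hd k
        have h4 := H.mul_mem h3 ih
        have h5 : (⟨Pi.single k (u k), 0⟩ : L q) * ⟨∑ k ∈ A, Pi.single k (u k), 0⟩ =
            ⟨Pi.single k (u k) + ∑ k ∈ A, Pi.single k (u k), 0⟩ := by
          refine L.ext ?_ ?_
          · funext x
            simp [mul_u, sh]
          · simp [mul_k]
        rw [h5] at h4
        exact h4
    have := hsum univ
    rw [Finset.univ_sum_single] at this
    exact this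
  have h6 := H.mul_mem (hu g.u) (hk g.k)
  have h7 : (⟨g.u, 0⟩ : L q) * ⟨0, g.k⟩ = g := by
    refine L.ext ?_ ?_
    · funext x
      simp [mul_u, sh]
    · simp [mul_k]
  rw [h7] at h6
  exact h6

/-- As a type, `L q` is a product. -/
def equivProd (q : ℕ) : L q ≃ (ZMod q → ZMod 2) × ZMod q where
  toFun a := (a.u, a.k)
  invFun p := ⟨p.1, p.2⟩
  left_inv _ := rfl
  right_inv _ := rfl

noncomputable instance [NeZero q] : Fintype (L q) := Fintype.ofEquiv _ (equivProd q).symm

theorem card_L [NeZero q] : Fintype.card (L q) = 2 ^ q * q := by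
  rw [Fintype.card_congr (equivProd q), Fintype.card_prod, Fintype.card_fun, ZMod.card, ZMod.card]

end Run7.h352.Lamp
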