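import Mathlib
import Pool.Agent.Run7.h352.Lamp

/-!
# Few pairs of a lamplighter group have a commutator conjugate to `s`
-/

namespace Run7.h352.Lamp

open Finset

/-- The pairs whose commutator is a translate of `s`. -/
noncomputable def Bad (q : ℕ) [NeZero q] : Finset (L q × L q) := by
  classical
  exact univ.filter fun p => ∃ k, (p.1 * p.2 * p.1⁻¹ * p.2⁻¹).u = sh k (ss q).u

theorem mem_Bad {q : ℕ} [NeZero q] (p : L q × L q) :
    p ∈ Bad q ↔ ∃ k, (p.1 * p.2 * p.1⁻¹ * p.2⁻¹).u = sh k (ss q).u := by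
  classical
  unfold Bad
  rw [mem_filter]
  exact and_iff_right (mem_univ _)

/-- A function on `ZMod p` invariant under a non-zero shift and vanishing at `0` vanishes. -/
theorem eq_of_shift {p : ℕ} [Fact p.Prime] (f g : ZMod p → ZMod 2) (m : ZMod p) (hm : m ≠ 0)
    (h0 : f 0 = g 0) (h : ∀ i, f i - f (i - m) = g i - g (i - m)) : f = g := by
  have h1 : ∀ n : ℕ, f (n * m) = g (n * m) := by
    intro n
    induction n with
    | zero => simpa using h0
    | succ n ih =>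
      have h2 := h ((n + 1 : ℕ) * m)
      have e : ((n + 1 : ℕ) : ZMod p) * m - m = n * m := by push_cast; ring
      rw [e, ih] at h2
      exact sub_left_injective h2
  funext i
  have h3 := h1 (i * m⁻¹).val
  rw [ZMod.natCast_zmod_val, mul_assoc, inv_mul_cancel₀ hm, mul_one] at h3
  exact h3

theorem card_A0 (q : ℕ) [NeZero q] [DecidablePred fun p : L q × L q => p.2.k = 0] :
    (univ.filter fun p : L q × L q => p.2.k = 0).card ≤ Fintype.card (L q) * 2 ^ q := by
  classical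
  have h1 : (univ.filter fun p : L q × L q => p.2.k = 0).card ≤
      (univ : Finset (L q × (ZMod q → ZMod 2))).card := by
    refine card_le_card_of_injOn (fun p => (p.1, p.2.u)) (fun _ _ => mem_coe.mpr (mem_univ _)) ?_
    intro a ha b hb hab
    have ha' := (mem_filter.mp (mem_coe.mp ha)).2
    have hb' := (mem_filter.mp (mem_coe.mp hb)).2
    simp only [Prod.mk.injEq] at hab
    exact Prod.ext hab.1 (L.ext hab.2 (ha'.trans hb'.symm))
  refine h1.trans_eq ?_
  rw [card_univ, Fintype.card_prod, Fintype.card_fun, ZMod.card, ZMod.card]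

theorem card_A (p : ℕ) [Fact p.Prime] (v : ZMod p → ZMod 2)
    [DecidablePred fun x : L p × L p => x.2.k ≠ 0 ∧ (x.1 * x.2 * x.1⁻¹ * x.2⁻¹).u = v] :
    (univ.filter fun x : L p × L p => x.2.k ≠ 0 ∧ (x.1 * x.2 * x.1⁻¹ * x.2⁻¹).u = v).card ≤
      Fintype.card (L p) * (2 * p) := by
  classical
  have h1 : (univ.filter fun x : L p × L p => x.2.k ≠ 0 ∧
      (x.1 * x.2 * x.1⁻¹ * x.2⁻¹).u = v).card ≤
      (univ : Finset (L p × (ZMod 2 × ZMod p))).card := by
    refine card_le_card_of_injOn (fun x => (x.2, (x.1.u 0, x.1.k)))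
      (fun _ _ => mem_coe.mpr (mem_univ _)) ?_
    intro a ha b hb hab
    obtain ⟨ha1, ha2⟩ := (mem_filter.mp (mem_coe.mp ha)).2
    obtain ⟨hb1, hb2⟩ := (mem_filter.mp (mem_coe.mp hb)).2
    simp only [Prod.mk.injEq] at hab
    obtain ⟨e1, e2, e3⟩ := hab
    refine Prod.ext (L.ext ?_ e3) e1
    refine eq_of_shift _ _ a.2.k ha1 e2 fun i => ?_
    have h2 := congrFun (ha2.trans hb2.symm) i
    rw [comm_u, comm_u, ← e1, ← e3] at h2
    exact add_right_cancel h2
  refine h1.trans_eq ?_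
  rw [card_univ, Fintype.card_prod, Fintype.card_prod, ZMod.card, ZMod.card]

theorem card_Bad (p : ℕ) [Fact p.Prime] :
    (Bad p).card ≤ Fintype.card (L p) * (2 ^ p + 2 * p ^ 2) := by
  classical
  have h1 : Bad p ⊆ (univ.filter fun x : L p × L p => x.2.k = 0) ∪
      (univ : Finset (ZMod p)).biUnion fun k => univ.filter fun x : L p × L p =>
        x.2.k ≠ 0 ∧ (x.1 * x.2 * x.1⁻¹ * x.2⁻¹).u = sh k (ss p).u := by
    intro x hx
    obtain ⟨k, hk⟩ := (mem_Bad x).mp hx
    by_cases h : x.2.k = 0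
    · exact mem_union_left _ (mem_filter.mpr ⟨mem_univ _, h⟩)
    · exact mem_union_right _ (mem_biUnion.mpr ⟨k, mem_univ _, mem_filter.mpr
        ⟨mem_univ _, h, hk⟩⟩)
  refine (card_le_card h1).trans ((card_union_le _ _).trans ?_)
  have h2 := card_A0 p
  have h3 := card_biUnion_le_card_mul (univ : Finset (ZMod p)) (fun k => univ.filter
    fun x : L p × L p => x.2.k ≠ 0 ∧ (x.1 * x.2 * x.1⁻¹ * x.2⁻¹).u = sh k (ss p).u)
    (Fintype.card (L p) * (2 * p)) (fun k _ => card_A p _)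
  rw [card_univ, ZMod.card] at h3
  calc _ ≤ Fintype.card (L p) * 2 ^ p + p * (Fintype.card (L p) * (2 * p)) := add_le_add h2 h3
    _ = _ := by ring

theorem sq_le_two_pow (n : ℕ) (hn : 4 ≤ n) : n ^ 2 ≤ 2 ^ n := by
  induction n, hn using Nat.le_induction with
  | base => norm_num
  | succ n hn ih =>
    rw [pow_succ 2 n]
    nlinarith

instance neZeroPrimes (p : Nat.Primes) : NeZero (p : ℕ) := ⟨p.2.ne_zero⟩

theorem exists_small (ε : ℝ) (hε : 0 < ε) : ∃ p : Nat.Primes,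
    ((Bad (p : ℕ)).card : ℝ) / (Fintype.card (L p) : ℝ) ^ 2 < ε := by
  obtain ⟨N, hN⟩ := exists_nat_gt (3 / ε)
  obtain ⟨p, hp1, hp2⟩ := Nat.exists_infinite_primes (max N 4)
  refine ⟨⟨p, hp2⟩, ?_⟩
  have : Fact p.Prime := ⟨hp2⟩
  have hpN : (N : ℝ) ≤ p := by exact_mod_cast (le_max_left _ _).trans hp1
  have hp4 : 4 ≤ p := (le_max_right _ _).trans hp1
  have hp0 : (0 : ℝ) < p := by exact_mod_cast (by omega : 0 < p)
  have h1 : ((Bad p).card : ℝ) ≤ Fintype.card (L p) * (2 ^ p + 2 * p ^ 2) := by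
    exact_mod_cast card_Bad p
  have h2 : ((p : ℝ)) ^ 2 ≤ 2 ^ p := by exact_mod_cast sq_le_two_pow p hp4
  have h3 : (Fintype.card (L p) : ℝ) = 2 ^ p * p := by
    rw [card_L]; push_cast; ring
  have h4 : (0 : ℝ) < 2 ^ p := by positivity
  change ((Bad p).card : ℝ) / (Fintype.card (L p) : ℝ) ^ 2 < ε
  rw [h3] at h1 ⊢
  have h5 : (3 : ℝ) < ε * p := by
    have : 3 / ε < p := hN.trans_le hpN
    rw [div_lt_iff₀ hε] at this
    linarith
  rw [div_lt_iff₀ (by positivity)]
  have h6 : ((Bad p).card : ℝ) ≤ (2 ^ p * p) * (3 * 2 ^ p) := by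
    refine h1.trans (mul_le_mul_of_nonneg_left ?_ (by positivity))
    linarith
  refine h6.trans_lt ?_
  have h7 : ε * (2 ^ p * (p : ℝ)) ^ 2 = (2 ^ p * p) * ((ε * p) * 2 ^ p) := by ring
  rw [h7]
  refine mul_lt_mul_of_pos_left ?_ (by positivity)
  exact mul_lt_mul_of_pos_right h5 h4

end Run7.h352.Lamp
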