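import Mathlib

/-!
# Lazy random walks on finite groups equidistribute
-/

namespace Run7.h352.Equidist

open Finset Filter Topology

variable {Q α : Type} [Group Q] [Fintype Q] [DecidableEq Q] [Fintype α]

/-- The number of words of length `n` in the steps `φ a` with product `g`, by recursion. -/
noncomputable def c (φ : α → Q) : ℕ → Q → ℝ
  | 0, g => if g = 1 then 1 else 0
  | n + 1, g => ∑ a, c φ n (g * (φ a)⁻¹)

theorem c_nonneg (φ : α → Q) (n : ℕ) (g : Q) : 0 ≤ c φ n g := by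
  induction n generalizing g with
  | zero => unfold c; split_ifs <;> norm_num
  | succ n ih => exact sum_nonneg fun a _ => ih _

theorem c_sum (φ : α → Q) (n : ℕ) : ∑ g, c φ n g = (Fintype.card α : ℝ) ^ n := by
  induction n with
  | zero => simp [c]
  | succ n ih =>
    simp only [c]
    rw [sum_comm]
    have : ∀ a, ∑ g, c φ n (g * (φ a)⁻¹) = (Fintype.card α : ℝ) ^ n := by
      intro a
      rw [← ih]
      exact Fintype.sum_equiv (Equiv.mulRight (φ a)⁻¹) _ _ (fun g => rfl)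
    simp only [this]
    rw [sum_const, card_univ, nsmul_eq_mul, pow_succ, mul_comm]

theorem c_add (φ : α → Q) (n m : ℕ) (g : Q) :
    c φ (n + m) g = ∑ h, c φ n (g * h⁻¹) * c φ m h := by
  induction m generalizing g with
  | zero => simp [c]
  | succ m ih =>
    rw [← add_assoc]
    simp only [c, ih, mul_sum]
    conv_rhs => rw [sum_comm]
    refine sum_congr rfl fun a _ => ?_
    refine Fintype.sum_equiv (Equiv.mulRight (φ a)) _ _ ?_
    intro h
    simp only [Equiv.coe_mulRight]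
    congr 2
    · group
    · group

theorem c_mul_le (φ : α → Q) (n m : ℕ) (g h : Q) :
    c φ n g * c φ m h ≤ c φ (n + m) (g * h) := by
  rw [c_add]
  have := single_le_sum (f := fun h' => c φ n (g * h * h'⁻¹) * c φ m h')
    (fun h' _ => mul_nonneg (c_nonneg φ _ _) (c_nonneg φ _ _)) (mem_univ h)
  simpa using this

theorem c_lazy (φ : α → Q) (a : α) (ha : φ a = 1) (n : ℕ) (g : Q) :
    c φ n g ≤ c φ (n + 1) g := by
  have := single_le_sum (f := fun b => c φ n (g * (φ b)⁻¹))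
    (fun b _ => c_nonneg φ _ _) (mem_univ a)
  simpa [c, ha] using this

theorem exists_pos (φ : α → Q) (hgen : Subgroup.closure (Set.range φ) = ⊤) (g : Q) :
    ∃ m, 1 ≤ c φ m g := by
  have hmul : ∀ x y : Q, (∃ m, 1 ≤ c φ m x) → (∃ m, 1 ≤ c φ m y) → ∃ m, 1 ≤ c φ m (x * y) := by
    rintro x y ⟨m, hm⟩ ⟨m', hm'⟩
    refine ⟨m + m', le_trans ?_ (c_mul_le φ m m' x y)⟩
    nlinarith
  have hpow : ∀ x : Q, (∃ m, 1 ≤ c φ m x) → ∀ k : ℕ, ∃ m, 1 ≤ c φ m (x ^ k) := by
    intro x hx k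
    induction k with
    | zero => exact ⟨0, by simp [c]⟩
    | succ k ih =>
      rw [pow_succ]
      exact hmul _ _ ih hx
  have hg : g ∈ Subgroup.closure (Set.range φ) := by rw [hgen]; trivial
  induction hg using Subgroup.closure_induction with
  | mem x hx =>
    obtain ⟨a, rfl⟩ := hx
    refine ⟨1, ?_⟩
    have := single_le_sum (f := fun b => c φ 0 (φ a * (φ b)⁻¹))
      (fun b _ => c_nonneg φ _ _) (mem_univ a)
    simpa [c] using this
  | one => exact ⟨0, by simp [c]⟩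
  | mul x y _ _ hx hy => exact hmul x y hx hy
  | inv x _ hx =>
    have h1 : x⁻¹ = x ^ (orderOf x - 1) := by
      rw [inv_eq_iff_mul_eq_one, ← pow_succ']
      have : orderOf x - 1 + 1 = orderOf x := Nat.sub_add_cancel (orderOf_pos x)
      rw [this, pow_orderOf_eq_one]
    rw [h1]
    exact hpow x hx _

theorem exists_uniform_pos (φ : α → Q) (hgen : Subgroup.closure (Set.range φ) = ⊤) (a : α)
    (ha : φ a = 1) : ∃ m, ∀ g, 1 ≤ c φ m g := by
  choose m hm using exists_pos φ hgen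
  refine ⟨univ.sup m, fun g => ?_⟩
  have hmono : Monotone fun n => c φ n g := monotone_nat_of_le_succ fun n => c_lazy φ a ha n g
  exact (hm g).trans (hmono (le_sup (mem_univ g)))

/-- The probability vector. -/
noncomputable def ν (φ : α → Q) (n : ℕ) (g : Q) : ℝ := c φ n g / (Fintype.card α : ℝ) ^ n

variable [Nonempty α]

omit [Fintype Q] [DecidableEq Q] in
theorem card_pos' : (0 : ℝ) < Fintype.card α := by
  exact_mod_cast Fintype.card_pos

theorem ν_sum (φ : α → Q) (n : ℕ) : ∑ g, ν φ n g = 1 := by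
  unfold ν
  rw [← sum_div, c_sum]
  exact div_self (pow_pos card_pos' _).ne'

theorem ν_nonneg (φ : α → Q) (n : ℕ) (g : Q) : 0 ≤ ν φ n g :=
  div_nonneg (c_nonneg φ n g) (pow_pos card_pos' _).le

theorem ν_add (φ : α → Q) (n m : ℕ) (g : Q) :
    ν φ (n + m) g = ∑ h, ν φ n (g * h⁻¹) * ν φ m h := by
  unfold ν
  rw [c_add, sum_div]
  refine sum_congr rfl fun h _ => ?_
  rw [pow_add, div_mul_div_comm]

theorem osc_step (φ : α → Q) (n m : ℕ) (δ C : ℝ) (hδ : ∀ g, δ ≤ ν φ m g)
    (hC : ∀ g g', ν φ n g - ν φ n g' ≤ C) (g g' : Q) :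
    ν φ (n + m) g - ν φ (n + m) g' ≤ (1 - Fintype.card Q * δ) * C := by
  have key : ∀ g, ∑ h, ν φ n (g * h⁻¹) * δ = δ := by
    intro g
    rw [← sum_mul]
    have : ∑ h, ν φ n (g * h⁻¹) = 1 := by
      rw [← ν_sum φ n]
      exact Fintype.sum_equiv ((Equiv.inv Q).trans (Equiv.mulLeft g)) _ _ (fun h => rfl)
    rw [this, one_mul]
  have e : ∀ g, ν φ (n + m) g = δ + ∑ h, ν φ n (g * h⁻¹) * (ν φ m h - δ) := by
    intro g
    simp only [mul_sub, sum_sub_distrib]
    rw [key, ν_add]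
    ring
  rw [e g, e g']
  calc _ = ∑ h, (ν φ n (g * h⁻¹) - ν φ n (g' * h⁻¹)) * (ν φ m h - δ) := by
        rw [add_sub_add_left_eq_sub, ← sum_sub_distrib]
        refine sum_congr rfl fun h _ => ?_
        ring
    _ ≤ ∑ h, C * (ν φ m h - δ) := by
        refine sum_le_sum fun h _ => ?_
        exact mul_le_mul_of_nonneg_right (hC _ _) (sub_nonneg.mpr (hδ h))
    _ = (1 - Fintype.card Q * δ) * C := by
        rw [← mul_sum, sum_sub_distrib, ν_sum, sum_const, card_univ, nsmul_eq_mul]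
        ring

theorem osc_tendsto (φ : α → Q) (hgen : Subgroup.closure (Set.range φ) = ⊤) (a : α)
    (ha : φ a = 1) : ∀ ε > 0, ∃ N, ∀ n ≥ N, ∀ g g', ν φ n g - ν φ n g' ≤ ε := by
  obtain ⟨m, hm⟩ := exists_uniform_pos φ hgen a ha
  set δ : ℝ := 1 / (Fintype.card α : ℝ) ^ m with hδdef
  have hδ : ∀ g, δ ≤ ν φ m g := fun g =>
    div_le_div_of_nonneg_right (hm g) (pow_pos card_pos' _).le
  have hδ0 : 0 < δ := by positivity
  have hQ : (0 : ℝ) < Fintype.card Q := by exact_mod_cast Fintype.card_pos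
  set r : ℝ := 1 - Fintype.card Q * δ with hr
  have hr1 : r < 1 := by
    have : 0 < Fintype.card Q * δ := by positivity
    linarith
  have hr0 : 0 ≤ r := by
    have h1 : ∑ g : Q, δ ≤ ∑ g, ν φ m g := sum_le_sum fun g _ => hδ g
    rw [ν_sum, sum_const, card_univ, nsmul_eq_mul] at h1
    linarith
  have hν1 : ∀ n g, ν φ n g ≤ 1 := by
    intro n g
    rw [← ν_sum φ n]
    exact single_le_sum (fun g _ => ν_nonneg φ n g) (mem_univ g)
  have hstep : ∀ k : ℕ, ∀ g g', ν φ (k * m) g - ν φ (k * m) g' ≤ r ^ k := by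
    intro k
    induction k with
    | zero =>
      intro g g'
      have := hν1 (0 * m) g
      have := ν_nonneg φ (0 * m) g'
      simp only [pow_zero]
      linarith
    | succ k ih =>
      intro g g'
      have := osc_step φ (k * m) m δ (r ^ k) hδ ih g g'
      rw [add_mul, one_mul, pow_succ, mul_comm (r ^ k)]
      exact this
  have hmono : ∀ n j : ℕ, ∀ C : ℝ, (∀ g g', ν φ n g - ν φ n g' ≤ C) →
      ∀ g g', ν φ (n + j) g - ν φ (n + j) g' ≤ C := by
    intro n j C hC g g'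
    have := osc_step φ n j 0 C (fun g => ν_nonneg φ j g) hC g g'
    simpa using this
  intro ε hε
  obtain ⟨k, hk⟩ := exists_pow_lt_of_lt_one hε hr1
  refine ⟨k * m, fun n hn g g' => ?_⟩
  obtain ⟨j, rfl⟩ := Nat.exists_eq_add_of_le hn
  exact (hmono (k * m) j _ (hstep k) g g').trans hk.le

theorem ν_tendsto (φ : α → Q) (hgen : Subgroup.closure (Set.range φ) = ⊤) (a : α)
    (ha : φ a = 1) (g : Q) :
    Tendsto (fun n => ν φ n g) atTop (𝓝 (1 / (Fintype.card Q : ℝ))) := by
  have hQ : (0 : ℝ) < Fintype.card Q := by exact_mod_cast Fintype.card_pos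
  rw [Metric.tendsto_atTop]
  intro ε hε
  obtain ⟨N, hN⟩ := osc_tendsto φ hgen a ha (ε / 2) (by positivity)
  refine ⟨N, fun n hn => ?_⟩
  have h := hN n hn
  have hs : (Fintype.card Q : ℝ) * ν φ n g - 1 = ∑ g', (ν φ n g - ν φ n g') := by
    rw [sum_sub_distrib, ν_sum, sum_const, card_univ, nsmul_eq_mul]
  have h1 : (Fintype.card Q : ℝ) * ν φ n g - 1 ≤ Fintype.card Q * (ε / 2) := by
    rw [hs]
    calc _ ≤ ∑ g' : Q, ε / 2 := sum_le_sum fun g' _ => h g g'
      _ = _ := by rw [sum_const, card_univ, nsmul_eq_mul]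
  have h2 : -(Fintype.card Q * (ε / 2)) ≤ (Fintype.card Q : ℝ) * ν φ n g - 1 := by
    rw [hs]
    calc -(Fintype.card Q * (ε / 2)) = ∑ g' : Q, -(ε / 2) := by
          rw [sum_const, card_univ, nsmul_eq_mul]; ring
      _ ≤ _ := sum_le_sum fun g' _ => by linarith [h g' g]
  rw [Real.dist_eq]
  have h3 : ν φ n g - 1 / Fintype.card Q = ((Fintype.card Q : ℝ) * ν φ n g - 1) / Fintype.card Q := by
    field_simp
  rw [h3, abs_div, abs_of_pos hQ, div_lt_iff₀ hQ]
  have h4 : |(Fintype.card Q : ℝ) * ν φ n g - 1| ≤ Fintype.card Q * (ε / 2) := abs_le.mpr ⟨h2, h1⟩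
  have h5 : Fintype.card Q * (ε / 2) < ε * Fintype.card Q := by nlinarith
  linarith

end Run7.h352.Equidist
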