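import Mathlib
import Pool.Agent.Run7.h352.Equidist

/-!
# Counting the words of a lazy walk
-/

namespace Run7.h352.Equidist

open Finset Filter Topology

variable {Q α : Type} [Group Q] [Fintype Q] [DecidableEq Q] [Fintype α]

theorem card_walk (φ : α → Q) (n : ℕ) (g : Q) :
    (∑ ω : Fin n → α, if (List.ofFn fun j => φ (ω j)).prod = g then (1 : ℝ) else 0) = c φ n g := by
  induction n generalizing g with
  | zero =>
    simp only [Nat.reduceAdd, List.ofFn_zero, List.prod_nil, univ_unique, sum_const, c]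
    simp only [card_singleton, one_smul]
    by_cases h : g = 1
    · subst h; simp
    · rw [if_neg h, if_neg (fun h' => h h'.symm)]
  | succ n ih =>
    simp only [c]
    rw [← Fintype.sum_equiv (Fin.snocEquiv (fun _ => α)) (fun p => if
      (List.ofFn fun j => φ (Fin.snocEquiv (fun _ => α) p j)).prod = g then (1 : ℝ) else 0) _
      (fun p => rfl), Fintype.sum_prod_type]
    refine sum_congr rfl fun a _ => ?_
    rw [← ih]
    refine sum_congr rfl fun ω _ => ?_
    rw [List.ofFn_succ', List.concat_eq_append, List.prod_append, List.prod_singleton]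
    simp only [Fin.snocEquiv_apply, Fin.snoc_castSucc, Fin.snoc_last]
    simp only [eq_mul_inv_iff_mul_eq]

/-- The number of pairs of walks ending in a given set. -/
theorem card_walk_pair (φ : α → Q) (n : ℕ) (A : Finset (Q × Q)) :
    (∑ ω : Fin 2 → Fin n → α, if ((List.ofFn fun j => φ (ω 0 j)).prod,
      (List.ofFn fun j => φ (ω 1 j)).prod) ∈ A then (1 : ℝ) else 0) =
      ∑ p ∈ A, c φ n p.1 * c φ n p.2 := by
  have e1 : (∑ ω : Fin 2 → Fin n → α, if ((List.ofFn fun j => φ (ω 0 j)).prod,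
      (List.ofFn fun j => φ (ω 1 j)).prod) ∈ A then (1 : ℝ) else 0) =
      ∑ p : (Fin n → α) × (Fin n → α), if ((List.ofFn fun j => φ (p.1 j)).prod,
      (List.ofFn fun j => φ (p.2 j)).prod) ∈ A then (1 : ℝ) else 0 :=
    Fintype.sum_equiv (finTwoArrowEquiv (Fin n → α)) _ _ (fun ω => rfl)
  rw [e1, Fintype.sum_prod_type]
  have e2 : ∀ x y : Q, (if (x, y) ∈ A then (1 : ℝ) else 0) =
      ∑ p ∈ A, (if x = p.1 then (1 : ℝ) else 0) * (if y = p.2 then (1 : ℝ) else 0) := by
    intro x y
    have : ∀ p : Q × Q, (if x = p.1 then (1 : ℝ) else 0) * (if y = p.2 then (1 : ℝ) else 0) =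
        if (x, y) = p then 1 else 0 := by
      intro p
      by_cases h1 : x = p.1
      · by_cases h2 : y = p.2
        · subst h1; subst h2; simp
        · have : ¬ (x, y) = p := fun h => h2 (by rw [← h])
          rw [if_neg h2, if_neg this, mul_zero]
      · have : ¬ (x, y) = p := fun h => h1 (by rw [← h])
        rw [if_neg h1, if_neg this, zero_mul]
    simp only [this]
    rw [sum_ite_eq]
  simp only [e2]
  have e3 : ∀ ω : Fin n → α, (∑ ω' : Fin n → α, ∑ p ∈ A,
      (if (List.ofFn fun j => φ (ω j)).prod = p.1 then (1 : ℝ) else 0) *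
      (if (List.ofFn fun j => φ (ω' j)).prod = p.2 then (1 : ℝ) else 0)) =
      ∑ p ∈ A, (if (List.ofFn fun j => φ (ω j)).prod = p.1 then (1 : ℝ) else 0) * c φ n p.2 := by
    intro ω
    rw [sum_comm]
    refine sum_congr rfl fun p _ => ?_
    rw [← mul_sum, card_walk]
  simp only [e3]
  rw [sum_comm]
  refine sum_congr rfl fun p _ => ?_
  rw [← sum_mul, card_walk]

variable [Nonempty α]

theorem pair_tendsto (φ : α → Q) (hgen : Subgroup.closure (Set.range φ) = ⊤) (a : α)
    (ha : φ a = 1) (A : Finset (Q × Q)) :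
    Tendsto (fun n => (∑ ω : Fin 2 → Fin n → α, if ((List.ofFn fun j => φ (ω 0 j)).prod,
      (List.ofFn fun j => φ (ω 1 j)).prod) ∈ A then (1 : ℝ) else 0) /
      (Fintype.card (Fin 2 → Fin n → α) : ℝ)) atTop
      (𝓝 (A.card / (Fintype.card Q : ℝ) ^ 2)) := by
  have h1 : ∀ n : ℕ, (∑ ω : Fin 2 → Fin n → α, if ((List.ofFn fun j => φ (ω 0 j)).prod,
      (List.ofFn fun j => φ (ω 1 j)).prod) ∈ A then (1 : ℝ) else 0) /
      (Fintype.card (Fin 2 → Fin n → α) : ℝ) = ∑ p ∈ A, ν φ n p.1 * ν φ n p.2 := by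
    intro n
    rw [card_walk_pair, sum_div]
    refine sum_congr rfl fun p _ => ?_
    unfold ν
    rw [div_mul_div_comm]
    congr 1
    rw [Fintype.card_fun, Fintype.card_fun, Fintype.card_fin, Fintype.card_fin]
    push_cast
    ring
  simp only [h1]
  have h2 : (A.card / (Fintype.card Q : ℝ) ^ 2) =
      ∑ p ∈ A, (1 / (Fintype.card Q : ℝ)) * (1 / (Fintype.card Q : ℝ)) := by
    rw [sum_const, nsmul_eq_mul]
    ring
  rw [h2]
  exact tendsto_finset_sum _ fun p _ =>
    (ν_tendsto φ hgen a ha p.1).mul (ν_tendsto φ hgen a ha p.2)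

end Run7.h352.Equidist
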