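import Mathlib
import Pool.Agent.Run7.h352.AlmostLaw2
import Pool.Agent.Run7.h352.LampBad
import Pool.Agent.Run7.h352.Walk

/-!
# The finitely generated group
-/

namespace Run7.h352.AlmostLaw

open Finset Filter Topology Lamp Equidist

/-- The product of all finite lamplighter groups of prime level. -/
abbrev Gam : Type := ∀ p : Nat.Primes, L (p : ℕ)

/-- The involution. -/
def sG : Gam := fun p => ss p

/-- The cut. -/
def κG : Gam → ZMod 2 := fun g => (g ⟨2, Nat.prime_two⟩).u 0

theorem sG_sq : sG * sG = 1 := by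
  funext p
  exact sq_of_k _ rfl

theorem κG_s (g : Gam) : κG (g * sG) = κG g + 1 := by
  have h1 : ∀ k : ZMod 2, (ss 2).u k = 1 := by
    unfold ss
    decide
  change (g ⟨2, Nat.prime_two⟩).u 0 + (ss 2).u (0 - _) = _
  rw [h1]
  rfl

/-- The ambient group. -/
abbrev BG : Type := Big Gam sG κG

/-- First generator. -/
noncomputable def eE : BG := ⟨0, Finsupp.single 1 1, 1⟩
/-- Second generator. -/
noncomputable def aE : BG := ⟨0, 0, fun p => aa p⟩
/-- Third generator. -/
noncomputable def tE : BG := ⟨0, 0, fun p => tau p⟩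

/-- The group. -/
noncomputable def GG : Subgroup BG := Subgroup.closure {eE, aE, tE}

/-- The fourth power of the commutator. -/
def ww : FreeGroup (Fin 2) :=
  (FreeGroup.of 0 * FreeGroup.of 1 * (FreeGroup.of 0)⁻¹ * (FreeGroup.of 1)⁻¹) ^ 4

theorem lift_ww {G : Type} [Group G] (f : Fin 2 → G) :
    FreeGroup.lift f ww = (f 0 * f 1 * (f 0)⁻¹ * (f 1)⁻¹) ^ 4 := by
  simp [ww]

theorem sG_ne : sG ≠ 1 := by
  intro h
  have h1 := congrFun h ⟨2, Nat.prime_two⟩
  have h2 := congrFun (congrArg L.u h1) 0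
  revert h2
  change ¬ ((ss 2).u 0 = 0)
  unfold ss
  decide

theorem comm_h_sq (x y : BG) : (x * y * x⁻¹ * y⁻¹).h * (x * y * x⁻¹ * y⁻¹).h = 1 := by
  funext p
  refine sq_of_k _ ?_
  exact comm_k (x.h p) (y.h p)

/-- If the fourth power of the commutator is non-trivial, all components are bad. -/
theorem bad_of_ne (x y : BG) (h : (x * y * x⁻¹ * y⁻¹) ^ 4 ≠ 1) (p : Nat.Primes) :
    (x.h p, y.h p) ∈ Bad (p : ℕ) := by
  by_contra hp
  apply h
  rw [pow_four sG_sq sG_ne κG_s _ (comm_h_sq x y), Om_eq_zero sG_sq _ _ (comm_h_sq x y)]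
  · rfl
  · rintro ⟨g, hg⟩
    apply hp
    rw [mem_Bad]
    refine ⟨(g p).k, ?_⟩
    exact conj_u _ (g p) (congrFun hg p) (comm_k _ _)

theorem tr_single (h g : Gam) : tr h (Finsupp.single g (1 : ZMod 2)) = Finsupp.single (h * g) 1 := by
  unfold tr
  rw [Finsupp.equivMapDomain_single]
  rfl

/-- The law fails. -/
theorem not_law : (tE * (aE * eE) * tE⁻¹ * (aE * eE)⁻¹) ^ 4 ≠ 1 := by
  intro h
  rw [pow_four sG_sq sG_ne κG_s _ (comm_h_sq _ _)] at h
  have h1 := congrFun (congrArg Big.j h) 1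
  change Om sG _ _ = 0 at h1
  set α : Gam := fun p => aa p with hα
  set τ : Gam := fun p => tau p with hτ
  have hS : (tE * (aE * eE) * tE⁻¹ * (aE * eE)⁻¹).S =
      Finsupp.single (τ * α) 1 + Finsupp.single (τ * α * τ⁻¹) 1 := by
    have e1 : (aE * eE).S = Finsupp.single α 1 := by
      rw [mul_S]
      change (0 : Gam →₀ ZMod 2) + tr α (Finsupp.single 1 1) = _
      rw [tr_single, zero_add, mul_one]
    have e2 : (aE * eE).h = α := by
      rw [mul_h]
      change α * 1 = α
      rw [mul_one]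
    simp only [mul_S, inv_S, mul_h tE, mul_h (tE * (aE * eE)), e1, e2, inv_h]
    change (0 : Gam →₀ ZMod 2) + tr τ (Finsupp.single α 1) + tr (τ * α) (tr τ⁻¹ 0) +
      tr (τ * α * τ⁻¹) (tr α⁻¹ (Finsupp.single α 1)) = _
    rw [tr_zero, tr_zero, tr_single, tr_single, tr_single]
    simp
  have hH : (tE * (aE * eE) * tE⁻¹ * (aE * eE)⁻¹).h = sG := by
    have e2 : (aE * eE).h = α := by
      rw [mul_h]
      change α * 1 = α
      rw [mul_one]
    simp only [mul_h tE, mul_h (tE * (aE * eE)), mul_h (tE * (aE * eE) * tE⁻¹), e2, inv_h]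
    change τ * α * τ⁻¹ * α⁻¹ = sG
    funext p
    refine L.ext ?_ ?_
    · funext i
      change (tau p * aa p * (tau p)⁻¹ * (aa p)⁻¹).u i = (ss p).u i
      rw [comm_u]
      simp only [tau, aa, ss, Pi.add_apply, Pi.zero_apply, sub_zero]
      have : ∀ a b : ZMod 2, 0 + (a - b) = b + a := by decide
      rw [this]
      congr 1
      by_cases hi : i = 1
      · subst hi; simp
      · rw [Pi.single_eq_of_ne hi, Pi.single_eq_of_ne (sub_ne_zero.mpr hi)]
    · exact comm_k _ _
  rw [hS, hH] at h1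
  have hAB : τ * α ≠ τ * α * τ⁻¹ := by
    intro he
    have := congrArg L.k (congrFun he ⟨3, Nat.prime_three⟩)
    revert this
    change ¬ ((1 : ZMod 3) + 0 = 1 + 0 + -1)
    decide
  have hB : sG * (τ * α * τ⁻¹) * sG = τ * α * τ⁻¹ := by
    funext p
    refine L.ext ?_ ?_
    · funext i
      change ((ss p).u i + (tau p * aa p * (tau p)⁻¹).u (i - 0)) + (ss p).u (i - _) =
        (tau p * aa p * (tau p)⁻¹).u i
      have hk : (ss p * (tau p * aa p * (tau p)⁻¹)).k = 0 := by
        simp [mul_k, inv_k, ss, tau, aa]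
      have hk' : (ss (p : ℕ)).k + (tau p * aa p * (tau p)⁻¹).k = 0 := hk
      have : ∀ a b : ZMod 2, a + b + a = b := by decide
      rw [show (sG * (τ * α * τ⁻¹)) p = ss p * (tau p * aa p * (tau p)⁻¹) from rfl, hk,
        sub_zero]
      exact this _ _
    · change (ss p).k + (tau p * aa p * (tau p)⁻¹).k + (ss p).k = (tau p * aa p * (tau p)⁻¹).k
      simp [ss]
  have hA1 : sG * (τ * α) * sG ≠ τ * α := by
    intro he
    have := congrFun (congrArg L.u (congrFun he ⟨3, Nat.prime_three⟩)) 0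
    revert this
    change ¬ ((ss 3 * (tau 3 * aa 3) * ss 3).u 0 = (tau 3 * aa 3).u 0)
    simp only [mul_u, mul_k, sh, Pi.add_apply, ss, tau, aa]
    decide
  have hA2 : sG * (τ * α) * sG ≠ τ * α * τ⁻¹ := by
    intro he
    have := congrArg L.k (congrFun he ⟨3, Nat.prime_three⟩)
    revert this
    change ¬ ((0 : ZMod 3) + (1 + 0) + 0 = 1 + 0 + -1)
    decide
  unfold Om at h1
  rw [Finsupp.sum_add_index' (by intro g; simp) (by intro g a b; ring),
    Finsupp.sum_single_index (by simp), Finsupp.sum_single_index (by simp)] at h1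
  simp only [one_mul, Finsupp.add_apply, hB] at h1
  rw [Finsupp.single_eq_of_ne hA1, Finsupp.single_eq_of_ne hA2,
    Finsupp.single_eq_of_ne hAB.symm, Finsupp.single_eq_same] at h1
  revert h1
  decide

end Run7.h352.AlmostLaw
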