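import Mathlib
import Pool.Agent.Run7.h352.AlmostLaw3

/-!
# Solvability
-/

namespace Run7.h352.AlmostLaw

open Finset Lamp
open scoped commutatorElement

/-- Elements over the base groups. -/
noncomputable def K1 : Subgroup BG where
  carrier := {a | ∀ p, (a.h p).k = 0}
  mul_mem' := by
    intro a b ha hb p
    change (a.h p).k + (b.h p).k = 0
    rw [ha p, hb p, add_zero]
  one_mem' := fun _ => rfl
  inv_mem' := by
    intro a ha p
    change -(a.h p).k = 0
    rw [ha p, neg_zero]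

/-- Elements over the identity. -/
noncomputable def K2 : Subgroup BG := (pr : BG →* Gam).ker

theorem mem_K2 (a : BG) : a ∈ K2 ↔ a.h = 1 := Iff.rfl

/-- Functions. -/
noncomputable def K3 : Subgroup BG where
  carrier := {a | a.h = 1 ∧ a.S = 0}
  mul_mem' := by
    rintro a b ⟨ha, ha'⟩ ⟨hb, hb'⟩
    refine ⟨?_, ?_⟩
    · rw [mul_h, ha, hb, one_mul]
    · rw [mul_S, ha', hb', tr_zero, add_zero]
  one_mem' := ⟨rfl, rfl⟩
  inv_mem' := by
    rintro a ⟨ha, ha'⟩
    refine ⟨?_, ?_⟩
    · rw [inv_h, ha, inv_one]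
    · rw [inv_S, ha', tr_zero]

theorem mem_K3 (a : BG) : a ∈ K3 ↔ a.h = 1 ∧ a.S = 0 := Iff.rfl

theorem step (H K : Subgroup BG) (n : ℕ) (h : derivedSeries BG n ≤ H)
    (hk : ∀ a ∈ H, ∀ b ∈ H, ⁅a, b⁆ ∈ K) : derivedSeries BG (n + 1) ≤ K :=
  (Subgroup.commutator_mono h h).trans (Subgroup.commutator_le.mpr hk)

theorem solvable_BG : Group.IsSolvable BG := by
  have h0 : derivedSeries BG 0 ≤ ⊤ := le_top
  have h1 : derivedSeries BG 1 ≤ K1 := by
    refine step ⊤ K1 0 h0 ?_
    intro a _ b _ p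
    rw [commutatorElement_def]
    exact comm_k (a.h p) (b.h p)
  have h2 : derivedSeries BG 2 ≤ K2 := by
    refine step K1 K2 1 h1 ?_
    intro a ha b hb
    rw [commutatorElement_def, mem_K2]
    funext p
    refine L.ext ?_ ?_
    · funext i
      change (a.h p * b.h p * (a.h p)⁻¹ * (b.h p)⁻¹).u i = 0
      rw [comm_u, ha p, hb p]
      simp
    · exact comm_k _ _
  have h3 : derivedSeries BG 3 ≤ K3 := by
    refine step K2 K3 2 h2 ?_
    intro a ha b hb
    rw [mem_K2] at ha hb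
    rw [commutatorElement_def, mem_K3]
    refine ⟨?_, ?_⟩
    · simp only [mul_h, inv_h, ha, hb, inv_one, mul_one]
    · simp only [mul_S, mul_h, inv_S, inv_h, ha, hb, inv_one, mul_one, tr_one]
      have : a.S + b.S + a.S + b.S = (a.S + a.S) + (b.S + b.S) := by abel
      rw [this, f2, f2, add_zero]
  have h4 : derivedSeries BG 4 ≤ ⊥ := by
    refine step K3 ⊥ 3 h3 ?_
    intro a ha b hb
    rw [mem_K3] at ha hb
    rw [commutatorElement_def, Subgroup.mem_bot]
    obtain ⟨ha, ha'⟩ := ha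
    obtain ⟨hb, hb'⟩ := hb
    refine Big.ext ?_ ?_ ?_
    · funext x
      simp only [mul_j, mul_S, mul_h, inv_j, inv_S, inv_h, ha, hb, ha', hb', inv_one, mul_one,
        one_mul, tr_one, add_zero, B_zero_left, one_j]
      have : a.j x + b.j x + a.j x + b.j x = (a.j x + a.j x) + (b.j x + b.j x) := by ring
      rw [this, z2, z2, add_zero]
    · simp only [mul_S, mul_h, inv_S, inv_h, ha, hb, ha', hb', inv_one, mul_one, tr_one,
        add_zero, one_S]
    · simp only [mul_h, inv_h, ha, hb, inv_one, mul_one, one_h]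
  exact (Group.isSolvable_def BG).mpr ⟨4, le_bot_iff.mp h4⟩

end Run7.h352.AlmostLaw
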